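import Pool.Agent.Helper63.Hyp6.Gp
import Pool.Agent.Helper87.Hyp6Fund
import Pool.Agent.Helper96.Hyp.Walls

/-!
The extended reflection group acting on integer vectors and on hyperbolic space.
-/

namespace Pool.Agent.Helper96.HypB

open Pool.Agent.Helper63.Hyp6
open Pool.Agent.Helper87.Hyp6V (toR lorZ JZ lor_toR lorZ_eq gram)
open scoped Matrix

lemma lorZ_eq_bil (x y : Fin 7 → ℤ) : lorZ x y = bil x y := rfl

lemma cc_eq_p0 : Pool.Agent.Helper87.Hyp6V.cc = p0 := by
  funext i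
  fin_cases i <;> rfl

lemma exists_V (F : Fin 27) : ∃ s, Pool.Agent.Helper96.Hyp.line F = V s := by
  revert F
  decide +kernel

/-- the walls are the 27 vectors -/
lemma wall_eq {v : Fin 7 → ℤ} (h : Pool.Agent.Helper87.Hyp6V.IsWall v) : ∃ s, v = V s := by
  have h1 : Pool.Agent.Helper96.Hyp.IsWall Pool.Agent.Helper96.Hyp.c0 v := by
    obtain ⟨h1, h2⟩ := h
    simp only [Fin.sum_univ_six] at h1 h2
    refine ⟨?_, ?_⟩
    · rw [← h1]; rfl
    · rw [← h2]
      simp only [Pool.Agent.Helper96.Hyp.B, Pool.Agent.Helper96.Hyp.S, Pool.Agent.Helper96.Hyp.c0]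
      simp
  obtain ⟨F, rfl⟩ := Pool.Agent.Helper96.Hyp.wall_c0 h1
  exact exists_V F

lemma Smat_gram : Smatᵀ * JZ * Smat = JZ := by decide +kernel

lemma bil_Smat (x y : Fin 7 → ℤ) : bil (Smat.mulVec x) (Smat.mulVec y) = bil x y := by
  rw [← lorZ_eq_bil, ← lorZ_eq_bil, lorZ_eq, lorZ_eq, Matrix.mulVec_mulVec,
    Matrix.dotProduct_mulVec, Matrix.vecMul_mulVec, ← Matrix.mul_assoc, Smat_gram,
    ← Matrix.dotProduct_mulVec]

/-- the symmetry of order 8 as a linear map -/
def SE : Module.End ℤ (Fin 7 → ℤ) := Smat.mulVecLin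

lemma SE_apply (x : Fin 7 → ℤ) : SE x = Smat.mulVec x := rfl

lemma SE_pow_apply (k : ℕ) (x : Fin 7 → ℤ) : (SE ^ k) x = (Smat ^ k).mulVec x := by
  induction k generalizing x with
  | zero => simp
  | succ k ih => rw [pow_succ, pow_succ, Module.End.mul_apply, ih, SE_apply, Matrix.mulVec_mulVec]

lemma SE_pow : SE ^ 8 = 1 := by
  apply LinearMap.ext
  intro x
  rw [SE_pow_apply, Smat_pow]
  simp

lemma SE_rfl1 (s : Fin 27) (x : Fin 7 → ℤ) : SE (rfl1 (V s) x) = rfl1 (V (sig s)) (SE x) := by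
  rw [rfl1_apply, rfl1_apply, map_sub, map_smul, SE_apply (V s), Smat_V, SE_apply x,
    ← bil_Smat x (V s), Smat_V]

/-- the linear representation of the extended group -/
noncomputable def rhoG : GG →* Module.End ℤ (Fin 7 → ℤ) :=
  liftM rho SE SE_pow (fun s => by
    apply LinearMap.ext
    intro x
    rw [rho_sm, rho_sm]
    exact SE_rfl1 s x)

lemma rhoG_apply (g : GG) : rhoG g = rho g.left * pw SE g.right := rfl

lemma pw_SE_p0 (j : C8) : pw SE j p0 = p0 := by
  unfold pw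
  generalize (Multiplicative.toAdd j).val = k
  induction k with
  | zero => simp
  | succ k ih => rw [pow_succ', Module.End.mul_apply, ih, SE_apply, Smat_p0]

lemma pw_SE_V (j : C8) (s : Fin 27) : pw SE j (V s) = V (pw sig j s) := by
  unfold pw
  generalize (Multiplicative.toAdd j).val = k
  induction k with
  | zero => simp
  | succ k ih =>
    rw [pow_succ', pow_succ', Module.End.mul_apply, ih, SE_apply, Smat_V, Equiv.Perm.mul_apply]

lemma bil_pw_SE (j : C8) (x y : Fin 7 → ℤ) : bil (pw SE j x) (pw SE j y) = bil x y := by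
  unfold pw
  generalize (Multiplicative.toAdd j).val = k
  induction k with
  | zero => simp
  | succ k ih =>
    rw [pow_succ', Module.End.mul_apply, Module.End.mul_apply, SE_apply, SE_apply, bil_Smat, ih]

lemma bil_rhoG (g : GG) (x y : Fin 7 → ℤ) : bil (rhoG g x) (rhoG g y) = bil x y := by
  rw [rhoG_apply, Module.End.mul_apply, Module.End.mul_apply, bil_rho, bil_pw_SE]

lemma rhoG_inl (u : W) : rhoG (SemidirectProduct.inl u) = rho u := by
  rw [rhoG_apply, SemidirectProduct.left_inl, SemidirectProduct.right_inl, pw_one, mul_one]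

lemma rhoG_inr (j : C8) : rhoG (SemidirectProduct.inr j) = pw SE j := by
  rw [rhoG_apply, SemidirectProduct.left_inr, SemidirectProduct.right_inr, map_one, one_mul]

lemma rhoG_rho (g : GG) (u : W) (x : Fin 7 → ℤ) :
    rhoG g (rho u x) = rho (act g u) (pw SE g.right x) := by
  rw [← rhoG_inl, ← Module.End.mul_apply, ← map_mul, act_eq, map_mul, rhoG_inr, rhoG_inl]
  rfl

lemma rhoG_rho_p0 (g : GG) (u : W) : rhoG g (rho u p0) = rho (act g u) p0 := by
  rw [rhoG_rho, pw_SE_p0]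

lemma rhoG_rho_V (g : GG) (u : W) (s : Fin 27) :
    rhoG g (rho u (V s)) = rho (act g u) (V (sg g s)) := by
  rw [rhoG_rho, pw_SE_V, sg_apply]

lemma rhoG_p0 (g : GG) : rhoG g p0 = rho g.left p0 := by
  rw [rhoG_apply, Module.End.mul_apply, pw_SE_p0]

/-! ### matrices -/

/-- integer matrices of the extended group -/
noncomputable def matZ : GG →* Matrix (Fin 7) (Fin 7) ℤ where
  toFun g := LinearMap.toMatrix' (rhoG g)
  map_one' := by rw [map_one]; exact LinearMap.toMatrix'_one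
  map_mul' g h := by rw [map_mul]; exact LinearMap.toMatrix'_mul _ _

lemma matZ_mulVec (g : GG) (x : Fin 7 → ℤ) : matZ g *ᵥ x = rhoG g x := by
  have h : Matrix.toLin' (matZ g) = rhoG g := Matrix.toLin'_toMatrix' (rhoG g)
  rw [← h, Matrix.toLin'_apply]

/-- real matrices of the extended group -/
noncomputable def matR : GG →* Matrix (Fin 7) (Fin 7) ℝ :=
  ((Int.castRingHom ℝ).mapMatrix : Matrix (Fin 7) (Fin 7) ℤ →+* Matrix (Fin 7) (Fin 7) ℝ).toMonoidHom.comp
    matZ

lemma matR_apply (g : GG) (i j : Fin 7) : matR g i j = (matZ g i j : ℝ) := rfl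

lemma matR_eq (g : GG) : matR g = (matZ g).map (Int.cast : ℤ → ℝ) := rfl

lemma matR_mulVec (g : GG) (x : Fin 7 → ℤ) : matR g *ᵥ toR x = toR (rhoG g x) := by
  rw [← matZ_mulVec]
  funext i
  simp [toR, Matrix.mulVec, dotProduct, matR_apply]

lemma matZ_gram (g : GG) : (matZ g)ᵀ * JZ * matZ g = JZ := by
  apply gram
  intro x y
  rw [matZ_mulVec, matZ_mulVec]
  exact bil_rhoG g x y

lemma lor_matR (g : GG) (x y : Fin 7 → ℝ) : lor (matR g *ᵥ x) (matR g *ᵥ y) = lor x y := by
  have h1 := congrArg (fun M : Matrix (Fin 7) (Fin 7) ℤ => M.map (Int.cast : ℤ → ℝ)) (matZ_gram g)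
  have hJ : JZ.map (Int.cast : ℤ → ℝ) = Pool.Agent.Helper87.Hyp6V.JJ := by
    ext i j
    simp only [JZ, Pool.Agent.Helper87.Hyp6V.JJ, Matrix.map_apply, Matrix.diagonal_apply]
    split_ifs <;> simp
  have h2 : (matR g)ᵀ * Pool.Agent.Helper87.Hyp6V.JJ * matR g = Pool.Agent.Helper87.Hyp6V.JJ := by
    rw [← hJ, matR_eq]
    have h3 : ∀ A B : Matrix (Fin 7) (Fin 7) ℤ, (A * B).map (Int.cast : ℤ → ℝ) =
        A.map (Int.cast : ℤ → ℝ) * B.map (Int.cast : ℤ → ℝ) := fun A B => by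
      exact Matrix.map_mul (f := Int.castRingHom ℝ)
    rw [← Matrix.transpose_map, ← h3, ← h3]
    exact h1
  rw [Pool.Agent.Helper87.Hyp6V.lor_eq, Pool.Agent.Helper87.Hyp6V.lor_eq, Matrix.mulVec_mulVec,
    Matrix.dotProduct_mulVec, Matrix.vecMul_mulVec, ← Matrix.mul_assoc, h2,
    ← Matrix.dotProduct_mulVec]

lemma lor_p0_neg {x : Fin 7 → ℝ} (hx : lor x x < 0) (hx0 : 0 < x 0) {q : Fin 7 → ℤ}
    (hq : bil q q < 0) (hq0 : 0 < q 0) : lor x (toR q) < 0 := by
  have h1 : lor (toR q) (toR q) < 0 := by rw [lor_toR]; exact_mod_cast hq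
  have h2 : 0 < toR q 0 := by simp only [toR]; exact_mod_cast hq0
  have h3 := Pool.Agent.Helper87.Hyp6V.lor_le (x := x) h1 h2
  have h4 : 0 < x 0 - Real.sqrt (∑ i : Fin 6, x i.succ * x i.succ) := by
    rw [sub_pos, Real.sqrt_lt' hx0]
    unfold lor at hx
    nlinarith
  nlinarith

lemma p0_bil : bil p0 p0 < 0 := by rw [p0_norm]; norm_num

lemma causal_rhoG_p0 (g : GG) : Causal (rhoG g p0) := by
  rw [rhoG_p0]
  exact causal_rho _ p0_causal

/-- the group preserves the future cone -/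
lemma matR_pos (g : GG) {x : Fin 7 → ℝ} (hx : lor x x < 0) (hx0 : 0 < x 0) :
    0 < (matR g *ᵥ x) 0 := by
  have hc := causal_rhoG_p0 g
  have hb : bil (rhoG g p0) (rhoG g p0) < 0 := by rw [bil_rhoG]; exact p0_bil
  have h1 : lor (toR (rhoG g p0)) (toR (rhoG g p0)) < 0 := by rw [lor_toR]; exact_mod_cast hb
  have h2 : 0 < toR (rhoG g p0) 0 := by simp only [toR]; exact_mod_cast hc.2
  refine Pool.Agent.Helper87.Hyp6V.pos_of_lor h1 h2 (by rw [lor_matR]; exact hx) ?_
  rw [← matR_mulVec, lor_matR, Pool.Agent.Helper87.Hyp6V.lor_comm]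
  exact lor_p0_neg hx hx0 p0_bil p0_causal.2

lemma isIsometry_matR (g : GG) : IsIsometry (matR g) := by
  refine ⟨lor_matR g, ?_⟩
  have h := matR_pos g (x := Pi.single 0 1) (by
    unfold lor
    simp [Fin.succ_ne_zero]) (by simp)
  have e : (matR g *ᵥ (Pi.single 0 1 : Fin 7 → ℝ)) 0 = matR g 0 0 := by
    rw [Matrix.mulVec_single_one]
    rfl
  rwa [e] at h

/-- the group in `GL(7)` -/
noncomputable def glG : GG →* GL (Fin 7) ℝ := matR.toHomUnits

lemma glG_val (g : GG) : ((glG g : GL (Fin 7) ℝ) : Matrix (Fin 7) (Fin 7) ℝ) = matR g :=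
  MonoidHom.coe_toHomUnits matR g

noncomputable instance : MulAction GG H6 where
  smul g x := ⟨matR g *ᵥ x.1, by rw [lor_matR]; exact x.2.1, matR_pos g (by
    rw [x.2.1]; norm_num) x.2.2⟩
  one_smul x := by
    apply Subtype.ext
    change matR 1 *ᵥ x.1 = x.1
    rw [map_one, Matrix.one_mulVec]
  mul_smul g h x := by
    apply Subtype.ext
    change matR (g * h) *ᵥ x.1 = matR g *ᵥ (matR h *ᵥ x.1)
    rw [map_mul, Matrix.mulVec_mulVec]

lemma smul_val (g : GG) (x : H6) : (g • x).1 = matR g *ᵥ x.1 := rfl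

instance : ContinuousConstSMul GG H6 where
  continuous_const_smul g := by
    apply Continuous.subtype_mk
    exact Continuous.matrix_mulVec continuous_const continuous_subtype_val

lemma lor_smul_smul (g : GG) (x y : H6) : lor (g • x).1 (g • y).1 = lor x.1 y.1 :=
  lor_matR g _ _

lemma lor_smul_rhoG (g : GG) (x : H6) (v : Fin 7 → ℤ) :
    lor (g • x).1 (toR (rhoG g v)) = lor x.1 (toR v) := by
  rw [← matR_mulVec]
  exact lor_matR g _ _

end Pool.Agent.Helper96.HypB
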