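import Pool.Agent.Helper96.HypB.Rep
import Pool.Agent.Helper96.Hyp6P

/-!
Torsion-freeness from freeness on cubes, and the integral representation of the extended group.
-/

namespace Pool.Agent.Helper96.HypB

open Pool.Agent.Helper63.Hyp6
open scoped Matrix

/-! ### minimisers -/

/-- the height of a vertex seen from `z` -/
noncomputable def ht (z : Fin 7 → ℤ) (w : W) : ℤ := - bil z (rho w p0)

/-- vertices closest to `z` -/
def IsMin (z : Fin 7 → ℤ) (w : W) : Prop := ∀ w', ht z w ≤ ht z w'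

/-- the walls through `z` -/
noncomputable def TT (z : Fin 7 → ℤ) (w : W) : Finset (Fin 27) := by
  classical exact Finset.univ.filter (fun s => bil z (rho w (V s)) = 0)

lemma mem_TT {z : Fin 7 → ℤ} {w : W} {s : Fin 27} : s ∈ TT z w ↔ bil z (rho w (V s)) = 0 := by
  unfold TT
  simp

lemma bil_sub_smul (z a b : Fin 7 → ℤ) (c : ℤ) : bil z (a - c • b) = bil z a - c * bil z b := by
  rw [bil_sub_right, bil_smul_right]

lemma rfl1_p0 (s : Fin 27) : rfl1 (V s) p0 = p0 - (-2 : ℤ) • V s := by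
  rw [rfl1_apply, V_p0]
  norm_num

lemma ht_mul_sm (z : Fin 7 → ℤ) (w : W) (s : Fin 27) :
    ht z (w * sm s) = ht z w - 2 * bil z (rho w (V s)) := by
  unfold ht
  rw [rho_mul_sm, rfl1_p0, map_sub, map_smul, bil_sub_smul]
  ring

lemma exists_isMin {z : Fin 7 → ℤ} (hz : Causal z) : ∃ w, IsMin z w := by
  have hpos : ∀ w, 0 ≤ ht z w := by
    intro w
    unfold ht
    have := causal_bil_nonpos hz (causal_rho w p0_causal)
    linarith
  obtain ⟨w, hw⟩ : ∃ w : W, ∀ w' : W, (ht z w).toNat ≤ (ht z w').toNat := by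
    have hne : (Set.range fun w : W => (ht z w).toNat).Nonempty := ⟨_, 1, rfl⟩
    obtain ⟨w, hw⟩ := Nat.sInf_mem hne
    exact ⟨w, fun w' => by
      have : (fun w : W => (ht z w).toNat) w = _ := hw
      simp only at this
      rw [this]
      exact Nat.sInf_le ⟨w', rfl⟩⟩
  refine ⟨w, fun w' => ?_⟩
  have h1 := hw w'
  have h2 := hpos w
  have h3 := hpos w'
  omega

lemma IsMin.le_zero {z : Fin 7 → ℤ} {w : W} (h : IsMin z w) (s : Fin 27) :
    bil z (rho w (V s)) ≤ 0 := by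
  have := h (w * sm s)
  rw [ht_mul_sm] at this
  linarith

lemma IsMin.root {z : Fin 7 → ℤ} {w : W} (h : IsMin z w) (v : W) (s : Fin 27) :
    0 ≤ bil (rho w p0) (rho v (V s)) * bil z (rho v (V s)) := by
  have h1 := h (v * sm s * v⁻¹ * w)
  have h2 : ht z (v * sm s * v⁻¹ * w) =
      ht z w + 2 * (bil (rho w p0) (rho v (V s)) * bil z (rho v (V s))) := by
    unfold ht
    have e : rho (v * sm s * v⁻¹ * w) p0 =
        rho w p0 - (2 * bil (rho w p0) (rho v (V s))) • rho v (V s) := by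
      rw [rho_mul, rho_mul, rho_mul_sm, rfl1_apply, map_sub, map_smul, rho_rho_inv,
        ← bil_rho v (rho v⁻¹ _) (V s), rho_rho_inv]
    rw [e, bil_sub_smul]
    ring
  linarith

lemma IsMin.mul_sm {z : Fin 7 → ℤ} {w : W} (h : IsMin z w) {s : Fin 27} (hs : s ∈ TT z w) :
    IsMin z (w * sm s) := by
  intro w'
  rw [ht_mul_sm, mem_TT.1 hs]
  have := h w'
  linarith

lemma TT_mul_sm {z : Fin 7 → ℤ} {w : W} {s : Fin 27} (hs : s ∈ TT z w) :
    TT z (w * sm s) = TT z w := by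
  ext t
  rw [mem_TT, mem_TT, rho_mul_sm, rfl1_apply, map_sub, map_smul, bil_sub_smul, mem_TT.1 hs]
  simp

lemma isClique_TT {z : Fin 7 → ℤ} (hz : Causal z) (hzz : bil z z < 0) (w : W) :
    IsClique (TT z w) := by
  intro s hs t ht hst
  rw [mem_TT] at hs ht
  refine clique_of_zero (q := rho w⁻¹ z) (causal_rho _ hz) (by rw [bil_rho]; exact hzz) hst ?_ ?_
  · rw [← bil_rho_left]; exact hs
  · rw [← bil_rho_left]; exact ht

/-- the vertices closest to `z` form one cube -/
lemma isMin_cube {z : Fin 7 → ℤ} (hz : Causal z) (hzz : bil z z < 0) (n : ℕ) :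
    ∀ {w1 w2 : W}, cs.length (w2⁻¹ * w1) = n → IsMin z w1 → IsMin z w2 →
      ∃ F ⊆ TT z w1, w2 = w1 * pr F ∧ TT z w2 = TT z w1 := by
  induction n with
  | zero =>
    intro w1 w2 hn h1 h2
    have h3 : w2⁻¹ * w1 = 1 := cs.length_eq_zero_iff.1 hn
    have h4 : w1 = w2 := by
      rw [inv_mul_eq_one] at h3
      exact h3.symm
    subst h4
    exact ⟨∅, Finset.empty_subset _, by rw [pr_empty, mul_one], rfl⟩
  | succ n ih =>
    intro w1 w2 hn h1 h2
    have h3 : w2⁻¹ * w1 ≠ 1 := by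
      intro h
      rw [h, cs.length_one] at hn
      omega
    obtain ⟨s, hs⟩ := cs.exists_rightDescent_of_ne_one h3
    rw [← mem_D_iff] at hs
    have hs' := mem_D.1 hs
    have h4 : 0 < bil (rho w2 p0) (rho w1 (V s)) := by
      rw [← bil_rho w2, rho_mul, rho_rho_inv] at hs'
      exact hs'
    have h5 := h2.root w1 s
    have h6 := h1.le_zero s
    have h7 : bil z (rho w1 (V s)) = 0 := by
      by_contra hne
      have h8 : bil z (rho w1 (V s)) < 0 := lt_of_le_of_ne h6 hne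
      nlinarith
    have hsT : s ∈ TT z w1 := mem_TT.2 h7
    have h8 : cs.length (w2⁻¹ * (w1 * sm s)) = n := by
      have := length_of_mem_D hs
      rw [mul_assoc] at this
      omega
    obtain ⟨F, hF, h9, h10⟩ := ih h8 (h1.mul_sm hsT) h2
    rw [TT_mul_sm hsT] at hF h10
    have hcl := isClique_TT hz hzz w1
    by_cases hsF : s ∈ F
    · refine ⟨F.erase s, (Finset.erase_subset _ _).trans hF, ?_, h10⟩
      rw [h9, pr_erase (hcl.mono hF) hsF, mul_assoc w1, ← mul_assoc (sm s), sm_sq, one_mul]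
    · refine ⟨insert s F, Finset.insert_subset hsT hF, ?_, h10⟩
      rw [h9, pr_insert (hcl.mono (Finset.insert_subset hsT hF)) hsF, mul_assoc]

lemma ht_act {z : Fin 7 → ℤ} {g : GG} (hg : rhoG g z = z) (w : W) : ht z (act g w) = ht z w := by
  unfold ht
  rw [← rhoG_rho_p0]
  conv_lhs => rw [← hg]
  rw [bil_rhoG]

lemma isMin_act {z : Fin 7 → ℤ} {g : GG} (hg : rhoG g z = z) {w : W} (h : IsMin z w) :
    IsMin z (act g w) := by
  intro w'
  rw [ht_act hg]
  exact h w'

lemma TT_act {z : Fin 7 → ℤ} {g : GG} (hg : rhoG g z = z) (w : W) :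
    TT z (act g w) = mp (sg g) (TT z w) := by
  ext t
  obtain ⟨s, rfl⟩ := (sg g).surjective t
  rw [apply_mem_mp, mem_TT, mem_TT, ← rhoG_rho_V]
  conv_lhs => rw [← hg]
  rw [bil_rhoG]

/-- an element with a timelike fixed vector fixes a cube -/
theorem exists_fixed_cube {z : Fin 7 → ℤ} (hz : Causal z) (hzz : bil z z < 0) {g : GG}
    (hg : rhoG g z = z) : ∃ (k : ℕ) (c : K k), g • c = c := by
  obtain ⟨w, hw⟩ := exists_isMin hz
  have hcl := isClique_TT hz hzz w
  refine ⟨(TT z w).card, cl w (TT z w) hcl rfl, ?_⟩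
  obtain ⟨F, hF, h1, h2⟩ := isMin_cube hz hzz _ rfl hw (isMin_act hg hw)
  rw [TT_act hg] at h2
  rw [smul_cl]
  apply Subtype.ext
  change (top (act g w) (mp (sg g) (TT z w)), mp (sg g) (TT z w)) = (top w (TT z w), TT z w)
  rw [h2, h1, top_mul_pr w hcl hF]

lemma exists_fixed_vector {g : GG} {n : ℕ} (hn : 0 < n) (h : g ^ n = 1) :
    ∃ z : Fin 7 → ℤ, Causal z ∧ bil z z < 0 ∧ rhoG g z = z := by
  have hc : ∀ i, Causal (rhoG (g ^ i) p0) := fun i => causal_rhoG_p0 _
  set z : Fin 7 → ℤ := ∑ i ∈ Finset.range n, rhoG (g ^ i) p0 with hz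
  have hfix : rhoG g z = z := by
    rw [hz, map_sum]
    have h1 : ∀ i, rhoG g (rhoG (g ^ i) p0) = rhoG (g ^ (i + 1)) p0 := by
      intro i
      rw [← Module.End.mul_apply, ← map_mul, ← pow_succ']
    simp only [h1]
    have h2 := Finset.sum_range_succ (fun i => rhoG (g ^ i) p0) n
    have h3 := Finset.sum_range_succ' (fun i => rhoG (g ^ i) p0) n
    rw [h3, h, pow_zero] at h2
    exact add_right_cancel h2
  have hpair : ∀ x : Fin 7 → ℤ, Causal x → bil x x < 0 → bil x z < 0 := by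
    intro x hx hxx
    rw [hz, bil_sum_right]
    apply Finset.sum_neg (fun i _ => timelike_bil_neg hx hxx (hc i))
    exact ⟨0, Finset.mem_range.2 hn⟩
  have hzz : bil z z < 0 := by
    conv_lhs => arg 2; rw [hz]
    rw [bil_sum_right]
    apply Finset.sum_neg _ ⟨0, Finset.mem_range.2 hn⟩
    intro i _
    rw [bil_comm]
    exact hpair _ (hc i) (by rw [bil_rhoG]; exact p0_bil)
  refine ⟨z, ⟨le_of_lt hzz, ?_⟩, hzz, hfix⟩
  rw [hz, Finset.sum_apply]
  exact Finset.sum_pos (fun i _ => (hc i).2) ⟨0, Finset.mem_range.2 hn⟩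

/-- freeness on cubes implies torsion-freeness -/
theorem torsionFree_of_free (Gam : Subgroup GG)
    (hfree : ∀ k, ∀ g ∈ Gam, ∀ c : K k, g • c = c → g = 1) :
    ∀ g ∈ Gam, ∀ n : ℕ, 0 < n → g ^ n = 1 → g = 1 := by
  intro g hg n hn h
  obtain ⟨z, hz, hzz, hfix⟩ := exists_fixed_vector hn h
  obtain ⟨k, c, hc⟩ := exists_fixed_cube hz hzz hfix
  exact hfree k g hg c hc

/-! ### the integral representation -/

/-- the extended group inside `GL(7, ℤ)` -/
noncomputable def rhoZ : GG →* GL (Fin 7) ℤ := matZ.toHomUnits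

lemma rhoZ_val (g : GG) : (rhoZ g).1 = matZ g := MonoidHom.coe_toHomUnits matZ g

lemma rhoZ_mulVec (g : GG) (x : Fin 7 → ℤ) : (rhoZ g).1.mulVec x = rhoG g x := by
  rw [rhoZ_val]
  exact matZ_mulVec g x

lemma V_injective : Function.Injective V := by
  have : ∀ s t : Fin 27, V s = V t → s = t := by decide +kernel
  exact fun s t h => this s t h

lemma pw_sig_eq_one : ∀ j : ZMod 8, (∀ s, (sig ^ j.val) s = s) → j = 0 := by decide +kernel

lemma rhoZ_injective : Function.Injective rhoZ := by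
  rw [injective_iff_map_eq_one]
  intro g hg
  have h1 : ∀ x, rhoG g x = x := by
    intro x
    rw [← rhoZ_mulVec, hg, Units.val_one, Matrix.one_mulVec]
  have h2 : g.left = 1 := by
    apply eq_one_of_rho_p0
    rw [← rhoG_p0, h1]
  have h3 : ∀ s, pw sig g.right s = s := by
    intro s
    apply V_injective
    have := h1 (V s)
    rw [rhoG_apply, h2, map_one, one_mul, pw_SE_V] at this
    exact this
  have h4 : Multiplicative.toAdd g.right = 0 := pw_sig_eq_one _ h3
  apply SemidirectProduct.ext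
  · rw [h2]; rfl
  · exact h4

lemma bil_rhoZ (w : GG) (x y : Fin 7 → ℤ) :
    bil ((rhoZ w).1.mulVec x) ((rhoZ w).1.mulVec y) = bil x y := by
  rw [rhoZ_mulVec, rhoZ_mulVec, bil_rhoG]

lemma rhoZ_fut (w : GG) : 0 < (rhoZ w).1 0 0 := by
  have h := (isIsometry_matR w).2
  rw [rhoZ_val]
  rw [matR_apply] at h
  exact_mod_cast h

lemma rhoZ_wall (s : Fin 27) : ∃ w : GG, ∀ x : Fin 7 → ℤ, (rhoZ w).1.mulVec x = rfl1 (V s) x := by
  refine ⟨SemidirectProduct.inl (sm s), fun x => ?_⟩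
  rw [rhoZ_mulVec, rhoG_inl, rho_sm]

/-- finite index subgroups of the extended group acting freely on cubes are hyperbolic manifold
groups -/
theorem manifold_of_free (Gam : Subgroup GG) [Gam.FiniteIndex]
    (hfree : ∀ k, ∀ g ∈ Gam, ∀ c : K k, g • c = c → g = 1) :
    IsHyperbolicManifoldGroup (Pool.Agent.Helper96.Hyp6P.imG rhoZ Gam) :=
  Pool.Agent.Helper96.Hyp6P.P_manifold rhoZ rhoZ_injective bil_rhoZ rhoZ_fut rhoZ_wall Gam
    (torsionFree_of_free Gam hfree)

/-- the action on hyperbolic space of such a subgroup -/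
theorem action_of_free (Gam : Subgroup GG)
    (hfree : ∀ k, ∀ g ∈ Gam, ∀ c : K k, g • c = c → g = 1) :
    ∃ (_ : MulAction Gam H6) (_ : ContinuousConstSMul Gam H6),
      (∀ x : H6, ∃ U ∈ nhds x, ∀ g : Gam, ((g • ·) '' U ∩ U).Nonempty → g = 1) ∧
      Topology.IsQuotientMap (Quotient.mk (orbitSetoid (Pool.Agent.Helper96.Hyp6P.imG rhoZ Gam)) :
        H6 → Quot6 (Pool.Agent.Helper96.Hyp6P.imG rhoZ Gam)) ∧
      (∀ x y : H6, (Quotient.mk (orbitSetoid (Pool.Agent.Helper96.Hyp6P.imG rhoZ Gam)) x :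
        Quot6 (Pool.Agent.Helper96.Hyp6P.imG rhoZ Gam)) =
        Quotient.mk (orbitSetoid (Pool.Agent.Helper96.Hyp6P.imG rhoZ Gam)) y ↔
          ∃ g : Gam, g • x = y) :=
  Pool.Agent.Helper96.Hyp6P.P_action rhoZ rhoZ_injective bil_rhoZ rhoZ_fut Gam
    (torsionFree_of_free Gam hfree)

end Pool.Agent.Helper96.HypB
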